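import Pool.Agent.R482.GB.Main

/-!
# Close pairs of zeros in every Bohr set (under RH)

Assume the Riemann hypothesis. Let `α₁, …, α_k` be rationally independent real numbers. We prove
Montgomery's inequality, for kernels whose Fourier transform may be supported anywhere but is
nonnegative outside `(-1, 1)`, with any continuous nonnegative weight on the torus evaluated at
`α γ mod 1`. Consequently the zeros `γ` with `α γ mod 1` in a given set `U` of the torus (with null
boundary) have on average at least `V(β)` zeros within `β` mean spacings, where `V(0.6073) > 1`.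
-/

open Filter Topology Complex MeasureTheory

namespace Pool.Agent.Results.MP_103a5c_nt.ClosePairsBohrSets

/-- the nontrivial zeros of zeta with ordinate in `(T₁, T₂]` -/
def zeros (T₁ T₂ : ℝ) : Set ℂ :=
  {s : ℂ | riemannZeta s = 0 ∧ 0 < s.re ∧ s.re < 1 ∧ T₁ < s.im ∧ s.im ≤ T₂}

/-- the multiplicity of a zero -/
noncomputable def mult (s : ℂ) : ℕ := analyticOrderNatAt riemannZeta s

/-- the number of nontrivial zeros with ordinate in `(T₁, T₂]`, counted with multiplicity -/
noncomputable def N (T₁ T₂ : ℝ) : ℕ := ∑ᶠ s ∈ zeros T₁ T₂, mult s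

/-- the point `α t mod 1` of the torus `(ℝ/ℤ)^k` -/
def pt {k : ℕ} (α : Fin k → ℝ) (t : ℝ) : UnitAddTorus (Fin k) :=
  fun j => ((α j * t : ℝ) : UnitAddCircle)

/-- the normalised Haar measure of the torus -/
noncomputable def haar (k : ℕ) : Measure (UnitAddTorus (Fin k)) :=
  Measure.pi fun _ => AddCircle.haarAddCircle

/-- the sum over all ordered pairs of zeros with ordinates `γ, γ'` in `(T, 2T]`, counted with
multiplicity, `γ = γ'` included, of `F(α γ mod 1) ∫_{-A}^{A} f(|x|) cos(x (γ - γ') log T) dx` -/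
noncomputable def pairSum {k : ℕ} (α : Fin k → ℝ) (F : UnitAddTorus (Fin k) → ℝ) (f : ℝ → ℝ)
    (A T : ℝ) : ℝ :=
  ∑ᶠ s ∈ zeros T (2 * T), ∑ᶠ s' ∈ zeros T (2 * T), (mult s : ℝ) * (mult s' : ℝ) *
    ((2 * ∫ x in (0 : ℝ)..A, f x * Real.cos (x * ((s.im - s'.im) * Real.log T))) * F (pt α s.im))

/-- the number, with multiplicity, of zeros with ordinate `γ` in `(T, 2T]` and `α γ mod 1 ∈ U` -/
noncomputable def NU {k : ℕ} (α : Fin k → ℝ) (U : Set (UnitAddTorus (Fin k))) (T : ℝ) : ℕ :=
  ∑ᶠ s ∈ {s : ℂ | s ∈ zeros T (2 * T) ∧ pt α s.im ∈ U}, mult s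

/-- the number of ordered pairs of zeros, counted with multiplicity, with ordinates `γ, γ'` in
`(T, 2T]`, `α γ mod 1 ∈ U` and `|γ - γ'| ≤ 2πβ / log T`; the diagonal pairs are included -/
noncomputable def close {k : ℕ} (α : Fin k → ℝ) (U : Set (UnitAddTorus (Fin k))) (β T : ℝ) : ℕ :=
  ∑ᶠ s ∈ {s : ℂ | s ∈ zeros T (2 * T) ∧ pt α s.im ∈ U},
    ∑ᶠ s' ∈ {s' : ℂ | s' ∈ zeros T (2 * T) ∧ |s.im - s'.im| ≤ 2 * Real.pi * β / Real.log T},
      mult s * mult s'

/-- `V(β) = β + 2 ∫_0^{min(1, 1/β)} x β (1 - βx + sin(2πβx) / (2π)) dx` -/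
noncomputable def V (β : ℝ) : ℝ := β + 2 * ∫ x in (0 : ℝ)..(min 1 (1 / β)),
  x * (β * (1 - β * x + Real.sin (2 * Real.pi * (β * x)) / (2 * Real.pi)))

open H370 in
lemma zeros_eq (T₁ T₂ : ℝ) : zeros T₁ T₂ = H370.zset riemannZeta T₁ T₂ := by
  ext s
  simp only [zeros, H370.zset, Set.mem_ofPred_eq]
  tauto

lemma N_eq (T₁ T₂ : ℝ) : N T₁ T₂ = H370.NN riemannZeta T₁ T₂ := by
  unfold N H370.NN H370.mult mult
  rw [zeros_eq]

lemma zeros_finite {T : ℝ} (hT : 1 ≤ T) : (zeros T (2 * T)).Finite := by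
  have h : (↑(H370.Zf riemannZeta T (2 * T)) : Set ℂ).Finite := Finset.finite_toSet _
  refine h.subset fun s hs => ?_
  rw [Finset.mem_coe, H370.mem_Zf H370.good_zeta hT, ← zeros_eq]
  exact hs

lemma pairSum_eq {k : ℕ} (α : Fin k → ℝ) (F : UnitAddTorus (Fin k) → ℝ) (f : ℝ → ℝ) (A : ℝ)
    {T : ℝ} (hT : 1 ≤ T) : pairSum α F f A T =
      R482.GB.PQ f A T (fun t => F (TH803TW.torusPt α t)) := by
  unfold pairSum R482.GB.PQ
  rw [zeros_eq, H370.finsum_Zf H370.good_zeta hT]
  refine Finset.sum_congr rfl fun s _ => ?_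
  rw [H370.finsum_Zf H370.good_zeta hT]
  refine Finset.sum_congr rfl fun s' _ => ?_
  have e : R482.GB.CC f A (Real.log T * (s.im - s'.im)) =
      2 * ∫ x in (0 : ℝ)..A, f x * Real.cos (x * ((s.im - s'.im) * Real.log T)) := by
    unfold R482.GB.CC
    congr 1
    refine intervalIntegral.integral_congr fun x _ => ?_
    show f x * Real.cos (Real.log T * (s.im - s'.im) * x) = _
    rw [show Real.log T * (s.im - s'.im) * x = x * ((s.im - s'.im) * Real.log T) by ring]
  rw [e]
  rfl

open Classical in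
lemma NU_eq {k : ℕ} (α : Fin k → ℝ) (U : Set (UnitAddTorus (Fin k))) {T : ℝ} (hT : 1 ≤ T) :
    (NU α U T : ℝ) = ∑ s ∈ H370.Zf riemannZeta T (2 * T), (H370.mult riemannZeta s : ℝ) *
      (if pt α s.im ∈ U then 1 else 0) := by
  have hfin := zeros_finite hT
  unfold NU
  have h2 : {s : ℂ | s ∈ zeros T (2 * T) ∧ pt α s.im ∈ U}.Finite := hfin.subset fun s hs => hs.1
  rw [finsum_mem_eq_finite_toFinset_sum _ h2]
  push_cast
  have e : h2.toFinset = (H370.Zf riemannZeta T (2 * T)).filter (fun s => pt α s.im ∈ U) := by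
    ext s
    rw [Set.Finite.mem_toFinset, Finset.mem_filter, H370.mem_Zf H370.good_zeta hT, ← zeros_eq]
    rfl
  rw [e, Finset.sum_filter]
  refine Finset.sum_congr rfl fun s _ => ?_
  split_ifs
  · rw [mul_one]; rfl
  · rw [mul_zero]

open Classical in
lemma close_eq {k : ℕ} (α : Fin k → ℝ) (U : Set (UnitAddTorus (Fin k))) (β : ℝ) {T : ℝ}
    (hT : 1 ≤ T) : (close α U β T : ℝ) =
      ∑ s ∈ H370.Zf riemannZeta T (2 * T), ∑ s' ∈ H370.Zf riemannZeta T (2 * T),
        (H370.mult riemannZeta s : ℝ) * (H370.mult riemannZeta s' : ℝ) *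
          (if |s.im - s'.im| ≤ 2 * Real.pi * β / Real.log T then
            (if pt α s.im ∈ U then 1 else 0) else 0) := by
  have hfin := zeros_finite hT
  unfold close
  have h2 : {s : ℂ | s ∈ zeros T (2 * T) ∧ pt α s.im ∈ U}.Finite := hfin.subset fun s hs => hs.1
  rw [finsum_mem_eq_finite_toFinset_sum _ h2]
  push_cast
  have e : h2.toFinset = (H370.Zf riemannZeta T (2 * T)).filter (fun s => pt α s.im ∈ U) := by
    ext s
    rw [Set.Finite.mem_toFinset, Finset.mem_filter, H370.mem_Zf H370.good_zeta hT, ← zeros_eq]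
    rfl
  rw [e, Finset.sum_filter]
  refine Finset.sum_congr rfl fun s _ => ?_
  have h3 : {s' : ℂ | s' ∈ zeros T (2 * T) ∧
      |s.im - s'.im| ≤ 2 * Real.pi * β / Real.log T}.Finite := hfin.subset fun s hs => hs.1
  have e2 : h3.toFinset = (H370.Zf riemannZeta T (2 * T)).filter
      (fun s' => |s.im - s'.im| ≤ 2 * Real.pi * β / Real.log T) := by
    ext s'
    rw [Set.Finite.mem_toFinset, Finset.mem_filter, H370.mem_Zf H370.good_zeta hT, ← zeros_eq]
    rfl
  rw [finsum_mem_eq_finite_toFinset_sum _ h3, e2, Finset.sum_filter]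
  push_cast
  split_ifs with h
  · refine Finset.sum_congr rfl fun s' _ => ?_
    split_ifs
    · rw [mul_one]; rfl
    · rw [mul_zero]
  · rw [eq_comm]
    apply Finset.sum_eq_zero
    intro s' _
    split_ifs <;> simp

lemma V_nonneg {β : ℝ} (hβ : 0 < β) : 0 ≤ V β := by
  unfold V
  have h0 : 0 ≤ min 1 (1 / β) := le_min zero_le_one (by positivity)
  have h : 0 ≤ ∫ x in (0 : ℝ)..(min 1 (1 / β)),
      x * (β * (1 - β * x + Real.sin (2 * Real.pi * (β * x)) / (2 * Real.pi))) := by
    refine intervalIntegral.integral_nonneg h0 fun x hx => ?_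
    have h1 : β * x ≤ 1 := by
      have h2 := hx.2.trans (min_le_right _ _)
      rw [le_div_iff₀ hβ] at h2
      linarith
    have h3 := H370.A3.ss_nonneg h1
    exact mul_nonneg hx.1 (mul_nonneg hβ.le h3)
  linarith

/-- **close pairs of zeros in Bohr sets, assuming RH** -/
theorem result (RH : RiemannHypothesis) (k : ℕ) (α : Fin k → ℝ)
    (hα : ∀ n : Fin k → ℤ, ∑ j, (n j : ℝ) * α j = 0 → n = 0) :
    -- Montgomery's inequality with a weight on the torus, for kernels that are nonnegative on the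
    -- Fourier side outside a compact part of `(-1, 1)`
    (∀ (A κ : ℝ) (f : ℝ → ℝ) (F : C(UnitAddTorus (Fin k), ℝ)), 0 < A → κ < 1 → ContDiff ℝ 2 f →
      f A = 0 → (∀ x, κ ≤ x → x ≤ A → 0 ≤ f x) → (∀ x, 0 ≤ F x) → ∀ ε : ℝ, 0 < ε →
      ∃ T₀ : ℝ, ∀ T : ℝ, T₀ ≤ T →
        ((∫ x, F x ∂(haar k)) * (f 0 + 2 * ∫ x in (0 : ℝ)..(min 1 A), x * f x) - ε) *
          (N T (2 * T) : ℝ) ≤ pairSum α F f A T) ∧
    -- close pairs in the sets of the torus with null boundary, in particular Bohr sets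
    (∀ U : Set (UnitAddTorus (Fin k)), haar k (frontier U) = 0 → ∀ β : ℝ, 0 < β →
      ∀ ε : ℝ, 0 < ε → ∃ T₀ : ℝ, ∀ T : ℝ, T₀ ≤ T →
        ((haar k U).toReal * V β - ε) * (N T (2 * T) : ℝ) ≤ (close α U β T : ℝ) ∧
        ((haar k U).toReal * (V β - 1) - ε) * (N T (2 * T) : ℝ) ≤
          (close α U β T : ℝ) - (NU α U T : ℝ)) ∧
    -- the value at `0.6073`
    1 < V (6073 / 10000) := by
  classical
  refine ⟨?_, ?_, ?_⟩
  · intro A κ f F hA hκ hf hfA hpos hF ε hε
    set W := (∫ x, F x ∂(haar k)) * (f 0 + 2 * ∫ x in (0 : ℝ)..(min 1 A), x * f x) with hW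
    obtain ⟨η, T1, hη, hT1, h1⟩ := R482.GB.toN W ε hε
    obtain ⟨T2, hT2, h2⟩ := R482.GB.weights RH hA hf hfA hκ hpos hα F hF hη
    refine ⟨max T1 T2, fun T hT => ?_⟩
    have hTT1 : T1 ≤ T := (le_max_left _ _).trans hT
    rw [pairSum_eq α F f A (by linarith), N_eq]
    exact (h1 T hTT1).trans (h2 T ((le_max_right _ _).trans hT))
  · intro U hU β hβ ε hε
    set δ : ℝ := ε / (4 * (|V β| + 1)) with hδ
    have hδ0 : 0 < δ := by positivity
    have hδV : δ * |V β| ≤ ε / 4 := by
      have : δ * |V β| = |V β| / (|V β| + 1) * (ε / 4) := by rw [hδ]; field_simp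
      rw [this]
      calc |V β| / (|V β| + 1) * (ε / 4) ≤ 1 * (ε / 4) := by
            gcongr
            rw [div_le_one (by positivity)]
            linarith
        _ = _ := one_mul _
    have hδε : δ ≤ ε / 4 := by
      rw [hδ, div_le_div_iff₀ (by positivity) (by norm_num)]
      nlinarith [abs_nonneg (V β)]
    obtain ⟨F, G, hF0, hFU, hUG, hG1, hFM, hGM⟩ := TH803TW.torus_sand hU hδ0
    have hG0 : ∀ x, 0 ≤ G x := fun x =>
      (Set.indicator_nonneg (fun _ _ => zero_le_one) x).trans (hUG x)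
    have hVV : V β = R482.GB.VV β := rfl
    obtain ⟨T1, hT1, h1⟩ := R482.GB.close_weights RH hβ hα F hF0 (ε := ε / 4) (by positivity)
    have hGi : 0 ≤ ∫ x, G x ∂(TH803TW.haarT k) := integral_nonneg fun x => hG0 x
    obtain ⟨T2, hT2, h2⟩ := R482.GB.first RH (TH803TW.APm_torus hα G) (fun t => hG0 _) hGi
      (ε := ε / 4) (by positivity)
    refine ⟨max T1 T2, fun T hT => ?_⟩
    have hTT1 : T1 ≤ T := (le_max_left _ _).trans hT
    have hTT2 : T2 ≤ T := (le_max_right _ _).trans hT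
    have hT1' : 1 ≤ T := by linarith
    have b1 := h1 T hTT1
    have b2 := (abs_le.1 (h2 T hTT2)).2
    have hN0 : (0 : ℝ) ≤ H370.NN riemannZeta T (2 * T) := Nat.cast_nonneg _
    have hFle : ∀ t, F (TH803TW.torusPt α t) ≤ if pt α t ∈ U then 1 else 0 := by
      intro t
      have h3 := hFU (TH803TW.torusPt α t)
      have e : TH803TW.torusPt α t = pt α t := rfl
      rw [e] at h3 ⊢
      split_ifs with h
      · rwa [Set.indicator_of_mem h] at h3
      · rwa [Set.indicator_of_notMem h] at h3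
    have hGle : ∀ t, (if pt α t ∈ U then (1 : ℝ) else 0) ≤ G (TH803TW.torusPt α t) := by
      intro t
      have h3 := hUG (TH803TW.torusPt α t)
      have e : TH803TW.torusPt α t = pt α t := rfl
      rw [e] at h3 ⊢
      split_ifs with h
      · rwa [Set.indicator_of_mem h] at h3
      · rwa [Set.indicator_of_notMem h] at h3
    have c1 : ∑ s ∈ H370.Zf riemannZeta T (2 * T), ∑ s' ∈ H370.Zf riemannZeta T (2 * T),
        (H370.mult riemannZeta s : ℝ) * (H370.mult riemannZeta s' : ℝ) *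
          (if |s.im - s'.im| ≤ 2 * Real.pi * β / Real.log T then
            F (TH803TW.torusPt α s.im) else 0) ≤ (close α U β T : ℝ) := by
      rw [close_eq α U β hT1']
      refine Finset.sum_le_sum fun s _ => Finset.sum_le_sum fun s' _ => ?_
      apply mul_le_mul_of_nonneg_left _ (by positivity)
      split_ifs with h h4
      · have := hFle s.im
        rwa [if_pos h4] at this
      · have := hFle s.im
        rwa [if_neg h4] at this
      · exact le_rfl
    have c2 : (NU α U T : ℝ) ≤ TH803TW.MW riemannZeta T (2 * T)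
        (fun t => G (TH803TW.torusPt α t)) := by
      rw [NU_eq α U hT1']
      unfold TH803TW.MW
      refine Finset.sum_le_sum fun s _ => ?_
      exact mul_le_mul_of_nonneg_left (hGle s.im) (Nat.cast_nonneg _)
    have hFU1 : (haar k U).toReal * V β - ε / 4 ≤ (∫ x, F x ∂(TH803TW.haarT k)) * V β := by
      have h := V_nonneg hβ
      have h5 : ((haar k U).toReal - δ) * V β ≤ (∫ x, F x ∂(TH803TW.haarT k)) * V β :=
        mul_le_mul_of_nonneg_right hFM h
      rw [abs_of_nonneg h] at hδV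
      linarith
    rw [N_eq]
    have d1 : ((haar k U).toReal * V β - ε / 2) * (H370.NN riemannZeta T (2 * T) : ℝ) ≤
        (close α U β T : ℝ) := by
      refine le_trans ?_ (b1.trans c1)
      apply mul_le_mul_of_nonneg_right _ hN0
      rw [← hVV]
      linarith
    have d2 : (NU α U T : ℝ) ≤ ((haar k U).toReal + ε / 2) *
        (H370.NN riemannZeta T (2 * T) : ℝ) := by
      have h3 : (∫ x, G x ∂(TH803TW.haarT k)) * (H370.NN riemannZeta T (2 * T) : ℝ) ≤
          ((haar k U).toReal + δ) * (H370.NN riemannZeta T (2 * T) : ℝ) :=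
        mul_le_mul_of_nonneg_right hGM hN0
      have h4 : δ * (H370.NN riemannZeta T (2 * T) : ℝ) ≤
          ε / 4 * (H370.NN riemannZeta T (2 * T) : ℝ) := mul_le_mul_of_nonneg_right hδε hN0
      linarith
    constructor
    · refine le_trans ?_ d1
      apply mul_le_mul_of_nonneg_right _ hN0
      linarith
    · linarith
  · have h := R482.GB.val_gt
    unfold V
    rw [min_eq_left (by norm_num)]
    have e : ∫ x in (0 : ℝ)..1, x * ((6073 / 10000 : ℝ) * (1 - (6073 / 10000 : ℝ) * x +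
        Real.sin (2 * Real.pi * ((6073 / 10000 : ℝ) * x)) / (2 * Real.pi))) =
        (6073 / 10000 : ℝ) * ∫ x in (0 : ℝ)..1, x * (1 - (6073 / 10000 : ℝ) * x +
        Real.sin (2 * Real.pi * ((6073 / 10000 : ℝ) * x)) / (2 * Real.pi)) := by
      rw [← intervalIntegral.integral_const_mul]
      refine intervalIntegral.integral_congr fun x _ => ?_
      ring
    rw [e]
    linarith

end Pool.Agent.Results.MP_103a5c_nt.ClosePairsBohrSets
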