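import Pool.Agent.Y749.Rig.FFf

/-!
# An upper bound for the mean of Montgomery's function implies the pair correlation conjecture

Montgomery's pair correlation conjecture is essentially the statement that `F(α, T) → 1` for
`α ≥ 1` (in the mean over intervals of `α`), while `F(α, T) = α + o(1)` for fixed `0 < α < 1` is a
theorem.  Assume the Riemann hypothesis.  We prove that one half of the statement is enough: if
`∫_a^b F(α, T) dα ≤ ∫_a^b min(α, 1) dα + o(1)` for all `0 < a < b`, then the conjecture holds (and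
conversely).  No lower bound for `F` is needed, and no information on the multiplicities of the
zeros.  There is a quantitative form: if the upper bound is known for `0 < a < b ≤ R` only, then
`∫_a^b F(α, T) dα ≥ ∫_a^b min(α, 1) dα - 1 / (6 (R - b)) - o(1)` for `b < R`.
-/

open Filter Topology
open Complex (I)

namespace Pool.Agent.Results.MP_103a5c_nt.FormFactorOneSided

/-- the nontrivial zeros of `ζ` with ordinate in `(0, T]` -/
def zeros (T : ℝ) : Set ℂ :=
  {s : ℂ | 0 < s.re ∧ s.re < 1 ∧ 0 < s.im ∧ s.im ≤ T ∧ riemannZeta s = 0}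

/-- the multiplicity of `s` as a zero of `ζ` -/
noncomputable def mult (s : ℂ) : ℕ := analyticOrderNatAt riemannZeta s

/-- `N(T; α, β)`: the number of ordered pairs of zeros (counted with multiplicity, the diagonal
included) with ordinates in `(0, T]` whose difference lies in `[2πα / log T, 2πβ / log T]` -/
noncomputable def N (T α β : ℝ) : ℕ :=
  ∑ᶠ s ∈ zeros T, ∑ᶠ s' ∈ {s' : ℂ | s' ∈ zeros T ∧
    2 * Real.pi * α / Real.log T ≤ s.im - s'.im ∧ s.im - s'.im ≤ 2 * Real.pi * β / Real.log T},
      mult s * mult s'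

/-- the constant predicted by Montgomery, `∫_α^β (1 - (sin πu / πu)²) du + δ(α, β)` -/
noncomputable def P (α β : ℝ) : ℝ :=
  (∫ u in α..β, (1 - (Real.sin (Real.pi * u) / (Real.pi * u)) ^ 2)) +
    if α ≤ 0 ∧ 0 ≤ β then 1 else 0

/-- `X(T) = (T / 2π) log T` -/
noncomputable def X (T : ℝ) : ℝ := T / (2 * Real.pi) * Real.log T

/-- Montgomery's conjecture along the filter `l` of values of `T` (for `l = atTop` it is the
conjecture itself) -/
def Montgomery (l : Filter ℝ) : Prop := ∀ α β : ℝ, α < β →
  Asymptotics.IsEquivalent l (fun T => (N T α β : ℝ)) (fun T => P α β * X T)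

/-- Montgomery's function `F(α, T)`:
`((T/2π) log T)⁻¹ ∑_γ ∑_γ' T ^ (iα(γ - γ')) w(γ - γ')`, `w(u) = 4 / (4 + u²)`, the zeros being counted
with multiplicity (the sum is real) -/
noncomputable def F (T α : ℝ) : ℂ :=
  (X T : ℂ)⁻¹ * ∑ᶠ s ∈ zeros T, ∑ᶠ s' ∈ zeros T, (mult s : ℂ) * (mult s' : ℂ) *
    ((T : ℂ) ^ (I * α * (s.im - s'.im)) * (4 / (4 + (s.im - s'.im) ^ 2)))

/-- the upper bound for the mean of `F` over the intervals `[a, b]`, `0 < a < b ≤ R`, along `l`:
`∫_a^b F(α, T) dα ≤ ∫_a^b min(α, 1) dα + o(1)`.  For `b < 1` it is contained in Montgomery's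
theorem. -/
def MeanUpper (l : Filter ℝ) (R : ℝ) : Prop := ∀ a b : ℝ, 0 < a → a < b → b ≤ R →
  ∀ ε : ℝ, 0 < ε → ∀ᶠ T in l, ∫ α in a..b, (F T α).re ≤ (∫ α in a..b, min α 1) + ε

/-- **Theorem.**  Assume the Riemann hypothesis and let `l` be a filter finer than `T → ∞` (for
instance `T → ∞` itself, or a sequence of values of `T`).  (1) Montgomery's pair correlation
conjecture along `l` holds if and only if the upper bound for the mean of `F` holds for all
intervals.  (2) If the upper bound holds for the intervals in `(0, R]`, then a lower bound holds for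
the intervals `[a, b]` with `0 < a < b < R`, with the loss `1 / (6 (R - b))`. -/
theorem result (hRH : RiemannHypothesis) (l : Filter ℝ) (hl : l ≤ atTop) :
    (Montgomery l ↔ ∀ R : ℝ, MeanUpper l R) ∧
    (∀ R : ℝ, 1 ≤ R → MeanUpper l R → ∀ a b : ℝ, 0 < a → a < b → b < R → ∀ ε : ℝ, 0 < ε →
      ∀ᶠ T in l, (∫ α in a..b, min α 1) - 1 / (6 * (R - b)) - ε ≤ ∫ α in a..b, (F T α).re) :=
  Pool.Agent.Y749.Rig.P.main hRH l hl

end Pool.Agent.Results.MP_103a5c_nt.FormFactorOneSided
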