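import Pool.Agent.R321.FC20

/-!
# Pair correlation of the zeros in almost all windows of boundedly many mean spacings

Assume the Riemann Hypothesis.  For every test function of bandwidth `μ < 1/2` the pair sum of the
zeros in the window `(t, t + 2πΛ/log T]`, which contains about `Λ` zeros, differs from the value
predicted by Montgomery's conjecture by at most `ε`, for all `t ∈ [T, 2T]` outside a set of measure
at most `ε T`, as soon as the fixed number `Λ` is large enough.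
-/

open MeasureTheory

namespace Pool.Agent.Results.MP_103a5c_nt.MicroscopicWindowPairs

/-- the nontrivial zeros of zeta with ordinate in `(a, b]` -/
def zeros (a b : ℝ) : Set ℂ :=
  {s : ℂ | riemannZeta s = 0 ∧ 0 < s.re ∧ s.re < 1 ∧ a < s.im ∧ s.im ≤ b}

/-- the multiplicity of a zero -/
noncomputable def m (s : ℂ) : ℝ := (analyticOrderNatAt riemannZeta s : ℝ)

/-- the sum of `f (γ - γ')` over the ordered pairs of ordinates of zeros in `(a, b]`, counted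
with multiplicity (the diagonal pairs are included) -/
noncomputable def pairs (a b : ℝ) (f : ℝ → ℝ) : ℝ :=
  ∑ᶠ s ∈ zeros a b, ∑ᶠ s' ∈ zeros a b, m s * m s' * f (s.im - s'.im)

/-- `r` is a test function of bandwidth `μ`: the cosine transform of a Lipschitz function
that vanishes outside `(-μ, μ)`, with `r(x) = O(x⁻²)` -/
def Test (μ : ℝ) (r : ℝ → ℝ) : Prop :=
  ∃ ψ : ℝ → ℝ, (∃ K : ℝ, ∀ x y, |ψ x - ψ y| ≤ K * |x - y|) ∧ (∀ x, μ ≤ |x| → ψ x = 0) ∧
    (∀ x, r x = ∫ α in (-μ)..μ, ψ α * Real.cos (2 * Real.pi * α * x)) ∧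
    ∃ C : ℝ, ∀ x, |r x| * x ^ 2 ≤ C

/-- the pair sum of the ordinates in the window `(t, t + 2πΛ/log T]` of `Λ` mean spacings,
per mean spacing -/
noncomputable def P (r : ℝ → ℝ) (t Λ T : ℝ) : ℝ :=
  Λ⁻¹ * pairs t (t + 2 * Real.pi * Λ / Real.log T) (fun d => r (d * Real.log T / (2 * Real.pi)))

/-- the main term -/
noncomputable def M (r : ℝ → ℝ) : ℝ :=
  r 0 + ∫ x, r x * (1 - (Real.sin (Real.pi * x) / (Real.pi * x)) ^ 2)

lemma zeros_eq (T₁ T₂ : ℝ) : zeros T₁ T₂ = H370.zset riemannZeta T₁ T₂ := by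
  ext s
  simp only [zeros, H370.zset, Set.mem_ofPred_eq]
  tauto

/-- the sets of zeros that are summed over are finite -/
theorem zeros_finite (T₁ T₂ : ℝ) (h : 0 < T₁) : (zeros T₁ T₂).Finite := by
  rw [zeros_eq]
  exact H370.zset_finite' H370.good_zeta T₁ T₂ h

/-- **Main theorem.** -/
theorem result (hRH : RiemannHypothesis) :
    ∀ μ ε : ℝ, 0 < μ → μ < 1 / 2 → 0 < ε → ∀ r : ℝ → ℝ, Test μ r →
      ∃ Λ₀ : ℝ, ∀ Λ : ℝ, Λ₀ ≤ Λ → ∃ T₀ : ℝ, ∀ T : ℝ, T₀ ≤ T →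
      volume {t : ℝ | T ≤ t ∧ t ≤ 2 * T ∧ ε < |P r t Λ T - M r|} ≤ ENNReal.ofReal (ε * T) := by
  rintro μ ε hμ hμ2 hε r ⟨ψ, hK, hz, hr, hC⟩
  have hrr : r = H370.A2.RR ψ μ := funext hr
  subst hrr
  have h0 : SP.RHs := fun s h1 h2 h3 => by
    apply hRH s h3
    · rintro ⟨n, hn⟩
      rw [hn] at h1
      norm_num at h1
      have : (0 : ℝ) ≤ n := Nat.cast_nonneg n
      linarith
    · rintro rfl
      norm_num at h2
  obtain ⟨Λ0, hΛ0, h1⟩ := Pool.Agent.R321.FA.pair_micro h0 hμ hμ2 ⟨hK, hz, hC⟩ ε hε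
  refine ⟨Λ0, fun Λ hΛ => ?_⟩
  obtain ⟨T0, hT0, h2⟩ := h1 Λ hΛ
  refine ⟨T0, fun T hT => (measure_mono ?_).trans (h2 T hT)⟩
  rintro t ⟨ht1, ht2, ht3⟩
  refine ⟨ht1, ht2, ?_⟩
  have htp : 0 < t := by linarith
  have e1 : P (H370.A2.RR ψ μ) t Λ T = 1 / Λ *
      (∑ s ∈ Pool.Agent.R321.FA.ZN t (t + 2 * Real.pi * Λ / Real.log T),
      ∑ s' ∈ Pool.Agent.R321.FA.ZN t (t + 2 * Real.pi * Λ / Real.log T),
        (SP.mu s : ℝ) * (SP.mu s' : ℝ) *
        H370.A2.RR ψ μ ((s.im - s'.im) * Real.log T / (2 * Real.pi))) := by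
    unfold P pairs
    rw [zeros_eq, one_div, Pool.Agent.R321.FA.ZN_finsum htp]
    congr 1
    refine Finset.sum_congr rfl fun s _ => ?_
    rw [Pool.Agent.R321.FA.ZN_finsum htp]
    rfl
  rw [← e1]
  exact ht3

end Pool.Agent.Results.MP_103a5c_nt.MicroscopicWindowPairs
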