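import Pool.Agent.R346.BG.Glu

/-!
# Montgomery's conjecture from sparse sets of windows, or from one-sided bounds

Assume the Riemann hypothesis.  Let `D(T; α, β)` be the difference between the normalised number of
pairs `N(T; α, β) / ((T/2π) log T)` and the value predicted by Montgomery.  Call a length `ℓ` good if
one of the following holds.

* There are disjoint intervals `(p n, q n)` of positive reals, each to the left of the next one, with
  `∑ ((q n - p n) / q n)² = ∞`, such that for each window `[a, a + ℓ]` inside the `n`-th interval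
  `|D|` is at most `C exp (-c (q n - p n)) + o(1)`.  (The union of the intervals may have density
  zero; and they may be as far apart as one likes if `(q n - p n) / q n` stays away from zero.)
* For all distant windows `[a, a + ℓ]` there is a one-sided bound, an upper bound or a lower bound,
  for `D` with an error `C exp (-c a) + o(1)`.

Then Montgomery's conjecture, for all windows and with no error, follows if the good lengths generate
a dense subgroup of the line, for instance if there are two of them with an irrational ratio, or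
arbitrarily small ones; and if `γ > 0` belongs to the group generated by the good lengths, the
discrepancy of every window is at most `(π² / 9) γ³`.  The proof combines Montgomery's theorem with
Beurling's gap theorem for functions with a spectral gap (proved here with an exponentially small
error in the gaps).
-/

open Filter Topology

namespace Pool.Agent.Results.MP_103a5c_nt.SparseOrOneSided

/-- the nontrivial zeros of `ζ` with ordinate in `(0, T]` -/
def zeros (T : ℝ) : Set ℂ :=
  {s : ℂ | 0 < s.re ∧ s.re < 1 ∧ 0 < s.im ∧ s.im ≤ T ∧ riemannZeta s = 0}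

/-- the multiplicity of `s` as a zero of `ζ` -/
noncomputable def mult (s : ℂ) : ℕ := analyticOrderNatAt riemannZeta s

/-- `N(T; α, β)`: the number of ordered pairs of zeros (counted with multiplicity, the diagonal
included) with ordinates in `(0, T]` whose difference lies in `[2πα / log T, 2πβ / log T]` -/
noncomputable def N (T α β : ℝ) : ℕ :=
  ∑ᶠ s ∈ zeros T, ∑ᶠ s' ∈ {s' : ℂ | s' ∈ zeros T ∧
    2 * Real.pi * α / Real.log T ≤ s.im - s'.im ∧ s.im - s'.im ≤ 2 * Real.pi * β / Real.log T},
      mult s * mult s'

/-- the constant predicted by Montgomery, `∫_α^β (1 - (sin πu / πu)²) du + δ(α, β)` -/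
noncomputable def P (α β : ℝ) : ℝ :=
  (∫ u in α..β, (1 - (Real.sin (Real.pi * u) / (Real.pi * u)) ^ 2)) +
    if α ≤ 0 ∧ 0 ≤ β then 1 else 0

/-- `X(T) = (T / 2π) log T` -/
noncomputable def X (T : ℝ) : ℝ := T / (2 * Real.pi) * Real.log T

/-- the discrepancy `D(T; α, β) = N(T; α, β) / X(T) - P(α, β)` -/
noncomputable def D (T α β : ℝ) : ℝ := N T α β / X T - P α β

/-- Montgomery's conjecture along the filter `F` of values of `T` (for `F = atTop` it is the
conjecture itself) -/
def Montgomery (F : Filter ℝ) : Prop := ∀ α β : ℝ, α < β →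
  Asymptotics.IsEquivalent F (fun T => (N T α β : ℝ)) (fun T => P α β * X T)

/-- control of the windows of length `ℓ` inside a sparse sequence of intervals: there are intervals
`(p n, q n)` of positive numbers, each to the left of the next one, with
`∑ ((q n - p n) / q n)² = ∞`, and constants `C, c > 0`, such that for every `n` and every window
`[a, a + ℓ]` inside `(p n, q n)` one has `|D(T; a, a + ℓ)| ≤ C exp (-c (q n - p n)) + o(1)` along
`F` -/
def Sparse (F : Filter ℝ) (ℓ : ℝ) : Prop := ∃ (p q : ℕ → ℝ) (C c : ℝ), 0 < C ∧ 0 < c ∧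
  (∀ n, 0 < p n) ∧ (∀ n, p n < q n) ∧ (∀ n, q n ≤ p (n + 1)) ∧
  (¬ Summable fun n => ((q n - p n) / q n) ^ 2) ∧ ∀ n a, p n < a → a + ℓ < q n →
    ∀ ε : ℝ, 0 < ε → ∀ᶠ T in F, |D T a (a + ℓ)| ≤ C * Real.exp (-(c * (q n - p n))) + ε

/-- the one-sided bound for distant windows of length `ℓ`: for some `C, c, A > 0` and every
`a ≥ A` one has `s D(T; a, a + ℓ) ≤ C exp (-c a) + o(1)` along `F`.  For `s = 1` it is an upper bound
for `D`, for `s = -1` a lower bound. -/
def OneSided (F : Filter ℝ) (ℓ s : ℝ) : Prop := ∃ C c A : ℝ, 0 < C ∧ 0 < c ∧ 0 < A ∧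
  ∀ a : ℝ, A ≤ a → ∀ ε : ℝ, 0 < ε → ∀ᶠ T in F, s * D T a (a + ℓ) ≤ C * Real.exp (-(c * a)) + ε

/-- good lengths -/
def Good (F : Filter ℝ) (ℓ : ℝ) : Prop := Sparse F ℓ ∨ OneSided F ℓ 1 ∨ OneSided F ℓ (-1)

/-- **Theorem.**  Assume the Riemann hypothesis, let `F` be a filter finer than `T → ∞` (for instance
`T → ∞` itself, or a sequence of values of `T`), and let `Λ` be a set of positive lengths.  (1) If
every `ℓ ∈ Λ` is good along `F`, then `|D(T; α, β)| ≤ (π² / 9) γ³ + o(1)` along `F` for all `α < β`
and every `γ > 0` in the group generated by `Λ` (for instance for `γ = ℓ ∈ Λ`).  (2) If `Λ`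
generates a dense subgroup of the real line (for instance two lengths with an irrational ratio, or
lengths tending to zero), then Montgomery's conjecture along `F` holds if and only if every `ℓ ∈ Λ`
is good along `F`. -/
theorem result (hRH : RiemannHypothesis) (F : Filter ℝ) (hF : F ≤ atTop) (Λ : Set ℝ)
    (hpos : ∀ ℓ ∈ Λ, 0 < ℓ) :
    ((∀ ℓ ∈ Λ, Good F ℓ) → ∀ γ ∈ AddSubgroup.closure Λ, 0 < γ → ∀ α β : ℝ, α < β →
      ∀ ε : ℝ, 0 < ε → ∀ᶠ T in F, |D T α β| ≤ Real.pi ^ 2 / 9 * γ ^ 3 + ε) ∧
    (Dense (AddSubgroup.closure Λ : Set ℝ) → (Montgomery F ↔ ∀ ℓ ∈ Λ, Good F ℓ)) :=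
  Pool.Agent.R346.BG.main hRH F hF Λ hpos

end Pool.Agent.Results.MP_103a5c_nt.SparseOrOneSided
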